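import Pool.Agent.Helper32.PG.Stm3

/-!
N3: balls of the graph of a horn.
-/

set_option autoImplicit false
set_option maxHeartbeats 4000000

open Finset Filter Topology
open Pool.Agent.Helper32.PG

namespace Pool.Agent.Helper68.PG

section graph

variable {X : Type} [DecidableEq X] (H : Horn X)

/-- the graph -/
def Gr : SimpleGraph X := SimpleGraph.fromRel fun x y => 0 < H.a x y

lemma adj_iff (x y : X) : (Gr H).Adj x y ↔ x ≠ y ∧ 0 < H.a x y := by
  unfold Gr
  rw [SimpleGraph.fromRel_adj, H.symm y x, or_self]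

lemma adj_sh {x y : X} (h : (Gr H).Adj x y) : H.sh y ≤ H.sh x + 1 := by
  rw [adj_iff] at h
  by_contra hlt
  have := H.loc x y (by omega)
  linarith [h.2]

lemma walk_sh {x y : X} (w : (Gr H).Walk x y) : H.sh y ≤ H.sh x + w.length := by
  induction w with
  | nil => simp
  | cons h w ih =>
    rw [SimpleGraph.Walk.length_cons]
    have := adj_sh H h
    omega

lemma exists_dn {x : X} {n : ℕ} (hx : H.sh x = n + 1) : ∃ y, H.sh y = n ∧ (Gr H).Adj y x := by
  have h1 := H.rowdn x n hx
  have h2 : 0 < ∑ y ∈ H.Sh n, H.a x y := by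
    rw [h1]
    positivity
  obtain ⟨y, hy, hy2⟩ := Finset.exists_lt_of_sum_lt (s := H.Sh n) (f := fun _ => (0 : ℝ))
    (g := fun y => H.a x y) (by simpa using h2)
  rw [H.mem] at hy
  refine ⟨y, hy, ?_⟩
  rw [adj_iff, H.symm]
  exact ⟨fun h => by rw [h, hx] at hy; omega, hy2⟩

lemma root_uniq' {o x : X} (ho : H.sh o = 0) (hx : H.sh x = 0) : x = o := by
  have h1 := H.card 0
  rw [H.e0, pow_zero, card_eq_one] at h1
  obtain ⟨a, ha⟩ := h1
  have h2 : x ∈ H.Sh 0 := (H.mem _ _).2 hx
  have h3 : o ∈ H.Sh 0 := (H.mem _ _).2 ho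
  rw [ha, mem_singleton] at h2 h3
  rw [h2, h3]

lemma exists_walk {o : X} (ho : H.sh o = 0) (n : ℕ) :
    ∀ x, H.sh x = n → ∃ w : (Gr H).Walk o x, w.length = n := by
  induction n with
  | zero =>
    intro x hx
    rw [root_uniq' H ho hx]
    exact ⟨SimpleGraph.Walk.nil, rfl⟩
  | succ n ih =>
    intro x hx
    obtain ⟨y, hy, hyx⟩ := exists_dn H hx
    obtain ⟨w, hw⟩ := ih y hy
    exact ⟨w.concat hyx, by rw [SimpleGraph.Walk.length_concat, hw]⟩

lemma connected {o : X} (ho : H.sh o = 0) : (Gr H).Connected := by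
  have h1 : ∀ x, (Gr H).Reachable o x := fun x => by
    obtain ⟨w, -⟩ := exists_walk H ho _ x rfl
    exact w.reachable
  exact { preconnected := fun x y => (h1 x).symm.trans (h1 y), nonempty := ⟨o⟩ }

lemma dist_eq {o : X} (ho : H.sh o = 0) (x : X) : (Gr H).dist o x = H.sh x := by
  apply le_antisymm
  · obtain ⟨w, hw⟩ := exists_walk H ho _ x rfl
    rw [← hw]
    exact SimpleGraph.dist_le w
  · obtain ⟨w, hw⟩ := (connected H ho).exists_walk_length_eq_dist o x
    have := walk_sh H w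
    rw [ho, hw] at this
    omega

end graph

theorem ball : S_Ball := by
  intro X _ H o ho
  refine ⟨connected H ho, fun n => ?_, fun σ C0 hσ hC0 h1 h2 => ?_⟩
  · ext x
    rw [Set.mem_setOf_eq, Finset.mem_coe, H.mem_B]
    have := dist_eq H ho x
    unfold Gr at this
    rw [this]
  · have hcard : ∀ n, ((H.B n).card : ℝ) = ∑ i ∈ range (n + 1), (4 : ℝ) ^ H.e i := by
      intro n
      have h3 := H.sum_B n (fun _ => (1 : ℝ))
      rw [sum_const, nsmul_eq_mul, mul_one] at h3
      rw [h3]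
      refine sum_congr rfl fun i _ => ?_
      rw [sum_const, nsmul_eq_mul, mul_one, H.card]
      push_cast
      rfl
    refine ⟨((2 : ℝ) ^ (σ + 1))⁻¹ / C0, by positivity, C0 * 2 ^ (σ + 1), fun n hn => ⟨?_, ?_⟩⟩
    · have hn0 : (0 : ℝ) < n := by exact_mod_cast hn
      rw [hcard]
      have h5 : ∑ i ∈ Ico (n / 2) (n + 1), (4 : ℝ) ^ H.e i ≤ ∑ i ∈ range (n + 1), (4 : ℝ) ^ H.e i := by
        apply sum_le_sum_of_subset_of_nonneg
        · intro i hi
          rw [mem_Ico] at hi
          rw [mem_range]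
          exact hi.2
        · intro i _ _
          positivity
      refine le_trans ?_ h5
      have h6 : ∀ i ∈ Ico (n / 2) (n + 1), ((n : ℝ) / 2) ^ σ / C0 ≤ (4 : ℝ) ^ H.e i := by
        intro i hi
        rw [mem_Ico] at hi
        rw [div_le_iff₀ (by positivity), mul_comm]
        refine le_trans ?_ (h2 i)
        apply Real.rpow_le_rpow (by positivity) _ hσ.le
        have h7 : n ≤ 2 * (i + 1) := by omega
        have h8 : (n : ℝ) ≤ 2 * ((i : ℝ) + 1) := by exact_mod_cast h7
        linarith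
      refine le_trans ?_ (sum_le_sum h6)
      rw [sum_const, nsmul_eq_mul, Nat.card_Ico]
      have h9 : (n : ℝ) / 2 ≤ ((n + 1 - n / 2 : ℕ) : ℝ) := by
        have h10 : n ≤ 2 * (n + 1 - n / 2) := by omega
        have h11 : (n : ℝ) ≤ 2 * ((n + 1 - n / 2 : ℕ) : ℝ) := by exact_mod_cast h10
        linarith
      calc ((2 : ℝ) ^ (σ + 1))⁻¹ / C0 * (n : ℝ) ^ (σ + 1) = ((n : ℝ) / 2) ^ (σ + 1) / C0 := by
            rw [Real.div_rpow hn0.le (by norm_num)]
            field_simp
        _ = (n : ℝ) / 2 * (((n : ℝ) / 2) ^ σ / C0) := by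
            rw [Real.rpow_add (by positivity), Real.rpow_one]
            ring
        _ ≤ _ := by gcongr
    · have hn1 : (1 : ℝ) ≤ n := by exact_mod_cast hn
      rw [hcard]
      have h6 : ∀ i ∈ range (n + 1), (4 : ℝ) ^ H.e i ≤ C0 * (2 * (n : ℝ)) ^ σ := by
        intro i hi
        rw [mem_range] at hi
        refine (h1 i).trans ?_
        have h7 : i + 1 ≤ 2 * n := by omega
        have h8 : (i : ℝ) + 1 ≤ 2 * (n : ℝ) := by exact_mod_cast h7
        have h9 : ((i : ℝ) + 1) ^ σ ≤ (2 * (n : ℝ)) ^ σ := Real.rpow_le_rpow (by positivity) h8 hσ.le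
        gcongr
      refine (sum_le_sum h6).trans ?_
      rw [sum_const, nsmul_eq_mul, card_range]
      push_cast
      calc ((n : ℝ) + 1) * (C0 * (2 * (n : ℝ)) ^ σ) ≤ (2 * (n : ℝ)) * (C0 * (2 * (n : ℝ)) ^ σ) := by
            gcongr
            linarith
        _ = C0 * (2 * (n : ℝ)) ^ (σ + 1) := by
            rw [Real.rpow_add (by positivity), Real.rpow_one]
            ring
        _ = C0 * 2 ^ (σ + 1) * (n : ℝ) ^ (σ + 1) := by
            rw [Real.mul_rpow (by norm_num) (by positivity)]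
            ring

end Pool.Agent.Helper68.PG
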