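import Pool.Agent.Helper32.PG.Stm3

/-!
N1: exponents for a real growth rate.
-/

set_option autoImplicit false
set_option maxHeartbeats 4000000

open Finset Filter Topology
open Pool.Agent.Helper32.PG

namespace Pool.Agent.Helper68.PG

theorem expR : S_ExpR := by
  intro σ hσ
  -- the scale
  obtain ⟨N, hN1, hN⟩ : ∃ N : ℕ, 1 ≤ N ∧ (1 + 1 / (N : ℝ)) ^ σ ≤ 4 := by
    have h1 : Tendsto (fun N : ℕ => (1 + 1 / (N : ℝ)) ^ σ) atTop (𝓝 ((1 + 0) ^ σ)) := by
      refine Tendsto.rpow_const ?_ (Or.inr hσ.le)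
      exact tendsto_const_nhds.add tendsto_one_div_atTop_nhds_zero_nat
    rw [add_zero, Real.one_rpow] at h1
    obtain ⟨N, h2, h3⟩ := ((h1.eventually_le_const (show (1 : ℝ) < 4 by norm_num)).and
      (eventually_ge_atTop 1)).exists
    exact ⟨N, h3, h2⟩
  have hN0 : (0 : ℝ) < N := by exact_mod_cast hN1
  have hN1' : (1 : ℝ) ≤ N := by exact_mod_cast hN1
  set b : ℕ → ℝ := fun n => 1 + (n : ℝ) / N with hb
  have hb1 : ∀ n, 1 ≤ b n := by
    intro n
    rw [hb]
    simp only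
    have : (0 : ℝ) ≤ (n : ℝ) / N := by positivity
    linarith
  have hb0 : ∀ n, 0 < b n := fun n => lt_of_lt_of_le one_pos (hb1 n)
  set x : ℕ → ℝ := fun n => σ * Real.logb 4 (b n) with hx
  have hx0 : ∀ n, 0 ≤ x n := fun n => mul_nonneg hσ.le (Real.logb_nonneg (by norm_num) (hb1 n))
  have hx4 : ∀ n, (4 : ℝ) ^ (x n) = b n ^ σ := by
    intro n
    rw [hx]
    simp only
    rw [mul_comm, Real.rpow_mul (by norm_num), Real.rpow_logb (by norm_num) (by norm_num) (hb0 n)]
  have hmono : ∀ n, x n ≤ x (n + 1) := by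
    intro n
    rw [hx]
    simp only
    apply mul_le_mul_of_nonneg_left _ hσ.le
    apply Real.logb_le_logb_of_le (by norm_num) (hb0 n)
    rw [hb]
    simp only
    gcongr
    linarith
  have hstep : ∀ n, x (n + 1) ≤ x n + 1 := by
    intro n
    have h1 : b (n + 1) ≤ b n * (1 + 1 / N) := by
      rw [hb]
      simp only
      push_cast
      have h2 : (0 : ℝ) ≤ (n : ℝ) / N := by positivity
      have h3 : (0 : ℝ) ≤ 1 / (N : ℝ) := by positivity
      have h4 : ((n : ℝ) + 1) / N = n / N + 1 / N := by rw [add_div]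
      rw [h4]
      nlinarith [mul_nonneg h2 h3]
    have h5 : (4 : ℝ) ^ x (n + 1) ≤ 4 ^ (x n + 1) := by
      rw [hx4, Real.rpow_add (by norm_num), hx4, Real.rpow_one]
      calc b (n + 1) ^ σ ≤ (b n * (1 + 1 / N)) ^ σ := Real.rpow_le_rpow (hb0 _).le h1 hσ.le
        _ = b n ^ σ * (1 + 1 / N) ^ σ := Real.mul_rpow (hb0 n).le (by positivity)
        _ ≤ b n ^ σ * 4 := by
            have := Real.rpow_nonneg (hb0 n).le σ
            gcongr
    exact (Real.rpow_le_rpow_left_iff (by norm_num)).1 h5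
  set e : ℕ → ℕ := fun n => ⌊x n⌋₊ with he
  have he1 : ∀ n, (e n : ℝ) ≤ x n := fun n => Nat.floor_le (hx0 n)
  have he2 : ∀ n, x n < e n + 1 := fun n => Nat.lt_floor_add_one (x n)
  have hp : ∀ n, (4 : ℝ) ^ e n ≤ b n ^ σ := by
    intro n
    rw [← Real.rpow_natCast, ← hx4]
    exact Real.rpow_le_rpow_of_exponent_le (by norm_num) (he1 n)
  have hq : ∀ n, b n ^ σ ≤ 4 * (4 : ℝ) ^ e n := by
    intro n
    rw [← Real.rpow_natCast, ← hx4]
    calc (4 : ℝ) ^ x n ≤ 4 ^ (((e n : ℕ) : ℝ) + 1) :=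
          Real.rpow_le_rpow_of_exponent_le (by norm_num) (he2 n).le
      _ = _ := by rw [Real.rpow_add (by norm_num), Real.rpow_one]; ring
  have hC1 : (1 : ℝ) ≤ 4 * (N : ℝ) ^ σ := by
    have := Real.one_le_rpow hN1' hσ.le
    linarith
  refine ⟨e, 4 * (N : ℝ) ^ σ, hC1, ?_, fun n => ?_, fun n => ?_, fun n => ?_⟩
  · have : x 0 = 0 := by
      rw [hx, hb]
      simp
    rw [he]
    simp only
    rw [this, Nat.floor_zero]
  · have h1 : e n ≤ e (n + 1) := Nat.floor_le_floor (hmono n)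
    have h2 : e (n + 1) ≤ e n + 1 := by
      have h3 : (e (n + 1) : ℝ) < (e n : ℝ) + 2 := by
        have := he1 (n + 1)
        have := hstep n
        have := he2 n
        linarith
      have h4 : e (n + 1) < e n + 2 := by exact_mod_cast h3
      omega
    omega
  · refine (hp n).trans ?_
    have h1 : b n ≤ (n : ℝ) + 1 := by
      rw [hb]
      simp only
      have : (n : ℝ) / N ≤ n := div_le_self (by positivity) hN1'
      linarith
    calc b n ^ σ ≤ ((n : ℝ) + 1) ^ σ := Real.rpow_le_rpow (hb0 n).le h1 hσ.le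
      _ = 1 * ((n : ℝ) + 1) ^ σ := (one_mul _).symm
      _ ≤ 4 * (N : ℝ) ^ σ * ((n : ℝ) + 1) ^ σ := by
          have : (0 : ℝ) ≤ ((n : ℝ) + 1) ^ σ := by positivity
          gcongr
  · have h1 : (n : ℝ) + 1 ≤ N * b n := by
      rw [hb]
      simp only
      rw [mul_add, mul_div_cancel₀ _ hN0.ne']
      linarith
    calc ((n : ℝ) + 1) ^ σ ≤ (N * b n) ^ σ := Real.rpow_le_rpow (by positivity) h1 hσ.le
      _ = (N : ℝ) ^ σ * b n ^ σ := Real.mul_rpow hN0.le (hb0 n).le
      _ ≤ (N : ℝ) ^ σ * (4 * (4 : ℝ) ^ e n) := by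
          have := hq n
          gcongr
      _ = _ := by ring

end Pool.Agent.Helper68.PG
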