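import Pool.Agent.Helper32.PG.Stm2
import Pool.Agent.Helper32.PG.Alg

/-!
P9: the spectral measure of the root of a horn charges every window of the radial band.
-/

set_option autoImplicit false
set_option maxHeartbeats 4000000

open scoped BigOperators InnerProductSpace Topology ENNReal
open Finset MeasureTheory Filter
open Pool.Agent.TH369.AN (Rz rz_eq rz_uniq rz_norm)
open Pool.Agent.TH369.MU (SpM)
open Pool.Agent.Y662.TR (LL lmk lmk_apply ll_inner ll_ext ll_summable ll_coord ll_sum dv dv_apply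
  dv_self dv_ne inner_dv norm_dv Mw Mw_apply Mw_norm Mw_sa add_coord sub_coord smul_coord)
open Pool.Agent.Helper32.BS (real_smul_sa rz_sub)
open Pool.Agent.Helper32.PG

namespace Pool.Agent.Helper68.PG

section radial

variable {X : Type} [DecidableEq X] (H : Horn X)

/-- a radial function is square summable -/
lemma rad_summable (g : ℕ → ℂ) (C : ℝ)
    (h : ∀ R : ℕ, ∑ n ∈ range (R + 1), (4 : ℝ) ^ H.e n * ‖g n‖ ^ 2 ≤ C) :
    Summable fun x => ‖g (H.sh x)‖ ^ 2 := by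
  refine summable_of_sum_le (c := C) (fun x => by positivity) (fun s => ?_)
  have hs : s ⊆ H.B (s.sup H.sh) := by
    intro x hx
    rw [H.mem_B]
    exact Finset.le_sup hx
  refine (Finset.sum_le_sum_of_subset_of_nonneg hs (fun _ _ _ => by positivity)).trans ?_
  rw [H.sum_B]
  refine le_trans (le_of_eq ?_) (h (s.sup H.sh))
  refine sum_congr rfl fun n _ => ?_
  have : ∀ x ∈ H.Sh n, ‖g (H.sh x)‖ ^ 2 = ‖g n‖ ^ 2 := fun x hx => by rw [(H.mem n x).1 hx]
  rw [sum_congr rfl this, sum_const, H.card, nsmul_eq_mul]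
  push_cast
  ring

lemma sum_Bc (R : ℕ) (F : X → ℂ) :
    ∑ x ∈ H.B R, F x = ∑ n ∈ range (R + 1), ∑ x ∈ H.Sh n, F x := by
  unfold Horn.B
  rw [sum_biUnion]
  intro i _ j _ hij
  rw [Function.onFun, disjoint_left]
  intro x h1 h2
  rw [H.mem] at h1 h2
  exact hij (h1.symm.trans h2)

lemma rad_tsum (g : ℕ → ℂ) (x : X) :
    ∑' y, (H.a x y : ℂ) * g (H.sh y) =
      ∑ n ∈ range (H.sh x + 2), ((∑ y ∈ H.Sh n, H.a x y : ℝ) : ℂ) * g n := by
  rw [tsum_eq_sum (s := H.B (H.sh x + 1))]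
  · rw [sum_Bc]
    refine sum_congr rfl fun n _ => ?_
    rw [Complex.ofReal_sum, sum_mul]
    refine sum_congr rfl fun y hy => ?_
    rw [(H.mem n y).1 hy]
  · intro y hy
    rw [H.mem_B] at hy
    rw [H.a_zero (Or.inl (by omega)), Complex.ofReal_zero, zero_mul]

lemma rad_zero (g : ℕ → ℂ) {x : X} (hx : H.sh x = 0) :
    ∑' y, (H.a x y : ℂ) * g (H.sh y) = 8 * g 0 + ((2 * 2 ^ H.e 1 / 2 ^ H.e 0 : ℝ) : ℂ) * g 1 := by
  rw [rad_tsum, hx, sum_range_succ, sum_range_succ, sum_range_zero]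
  have h1 := H.row0 x
  have h2 := H.rowup x
  rw [hx] at h1 h2
  simp only [zero_add] at h2 ⊢
  rw [h1, h2]
  push_cast
  ring

lemma rad_succ (g : ℕ → ℂ) {x : X} {k : ℕ} (hx : H.sh x = k + 1) :
    ∑' y, (H.a x y : ℂ) * g (H.sh y) = ((2 * 2 ^ H.e k / 2 ^ H.e (k + 1) : ℝ) : ℂ) * g k +
      8 * g (k + 1) + ((2 * 2 ^ H.e (k + 2) / 2 ^ H.e (k + 1) : ℝ) : ℂ) * g (k + 2) := by
  rw [rad_tsum, hx, show k + 1 + 2 = k + 3 from rfl, sum_range_succ, sum_range_succ, sum_range_succ,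
    sum_eq_zero, zero_add]
  · have h1 := H.row0 x
    have h2 := H.rowup x
    have h3 := H.rowdn x k hx
    rw [hx] at h1 h2
    rw [show k + 1 + 1 = k + 2 from rfl] at h2
    rw [h1, h2, h3]
    push_cast
    ring
  · intro n hn
    rw [mem_range] at hn
    have : ∑ y ∈ H.Sh n, H.a x y = 0 := by
      refine sum_eq_zero fun y hy => ?_
      rw [H.mem] at hy
      exact H.a_zero (Or.inr (by omega))
    rw [this, Complex.ofReal_zero, zero_mul]

lemma root_uniq {o x : X} (ho : H.sh o = 0) (hx : H.sh x = 0) : x = o := by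
  have h1 := H.card 0
  rw [H.e0, pow_zero, card_eq_one] at h1
  obtain ⟨a, ha⟩ := h1
  have h2 : x ∈ H.Sh 0 := (H.mem _ _).2 hx
  have h3 : o ∈ H.Sh 0 := (H.mem _ _).2 ho
  rw [ha, mem_singleton] at h2 h3
  rw [h2, h3]

/-- the explicit resolvent of the radial part -/
theorem free_res {o : X} (L : LL X →L[ℂ] LL X) (hL : IsSelfAdjoint L)
    (hLa : ∀ (u : LL X) (x : X), L u x = ∑' y, (H.a x y : ℂ) * u y) (ho : H.sh o = 0)
    {r r' : ℂ} (hr : r * r' = 1) (hr1 : ‖r‖ < 1) (hz : (8 + 2 * (r + r')).im ≠ 0) :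
    ⟪dv o, Rz L (8 + 2 * (r + r')) (dv o)⟫_ℂ = -r / 2 := by
  set z : ℂ := 8 + 2 * (r + r') with hzd
  set g : ℕ → ℂ := fun n => -(r ^ (n + 1) / 2) * ((2 : ℂ) ^ H.e n)⁻¹ with hg
  have hgn : ∀ n, (4 : ℝ) ^ H.e n * ‖g n‖ ^ 2 = (‖r‖ ^ 2) ^ (n + 1) / 4 := by
    intro n
    rw [hg]
    simp only
    rw [norm_mul, norm_neg, norm_div, norm_pow, norm_inv, norm_pow, mul_pow, div_pow, inv_pow,
      RCLike.norm_ofNat, ← pow_mul 2 (H.e n) 2, mul_comm (H.e n) 2, pow_mul 2 2 (H.e n)]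
    have : ((2 : ℝ) ^ 2) ^ H.e n ≠ 0 := by positivity
    have e4 : (4 : ℝ) = 2 ^ 2 := by norm_num
    rw [e4]
    field_simp
    ring
  have hsum : Summable fun x => ‖g (H.sh x)‖ ^ 2 := by
    apply rad_summable H g (∑' n : ℕ, (‖r‖ ^ 2) ^ (n + 1) / 4)
    intro R
    rw [sum_congr rfl fun n _ => hgn n]
    have hs : Summable fun n : ℕ => (‖r‖ ^ 2) ^ (n + 1) / 4 := by
      have h1 : ‖r‖ ^ 2 < 1 := by
        have := norm_nonneg r
        nlinarith
      have h2 := (summable_geometric_of_lt_one (by positivity) h1).mul_left (‖r‖ ^ 2 / 4)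
      refine h2.congr fun n => ?_
      rw [pow_succ]
      ring
    exact hs.sum_le_tsum _ (fun n _ => by positivity)
  set u : LL X := lmk (fun x => g (H.sh x)) hsum with hu
  have hux : ∀ x, u x = g (H.sh x) := fun x => rfl
  have hcast : ∀ a b : ℕ, ((2 * 2 ^ a / 2 ^ b : ℝ) : ℂ) = 2 * (2 : ℂ) ^ a / 2 ^ b := by
    intro a b
    push_cast
    rfl
  have hne : ∀ a : ℕ, (2 : ℂ) ^ a ≠ 0 := fun a => pow_ne_zero a two_ne_zero
  have key : L u - z • u = dv o := by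
    apply ll_ext
    intro x
    rw [sub_coord, smul_coord, hLa]
    simp only [hux]
    rcases Nat.eq_zero_or_pos (H.sh x) with h0 | h0
    · rw [rad_zero H g h0, root_uniq H ho h0, dv_self, ho, hcast]
      simp only [hg, H.e0, zero_add, pow_one, pow_zero, inv_one, mul_one]
      have h1 := hne (H.e 1)
      field_simp
      rw [hzd]
      linear_combination 2 * hr
    · obtain ⟨k, hk⟩ : ∃ k, H.sh x = k + 1 := ⟨H.sh x - 1, by omega⟩
      rw [rad_succ H g hk, dv_ne (fun h => by rw [h, ho] at h0; exact absurd h0 (lt_irrefl 0)), hk,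
        hcast, hcast]
      simp only [hg]
      have h1 := hne (H.e k)
      have h2 := hne (H.e (k + 1))
      have h3 := hne (H.e (k + 2))
      field_simp
      rw [hzd]
      ring_nf
      linear_combination (2 * r ^ (k + 1)) * hr
  have h2 := rz_uniq L hL z hz u (dv o) key
  rw [← h2, inner_dv, hux, ho, hg]
  simp only [H.e0, zero_add, pow_one, pow_zero, inv_one, mul_one]
  ring

end radial

section spec

variable {V : Type}

/-- first order perturbation -/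
lemma rz_pert {L A : LL V →L[ℂ] LL V} (hL : IsSelfAdjoint L) (hA : IsSelfAdjoint (L + A)) {z : ℂ}
    (hz : 0 < z.im) {f : LL V} (hf : ‖f‖ = 1) {M : ℝ} (hM : ‖A‖ ≤ M) :
    ‖Rz (L + A) z f - Rz L z f‖ ≤ M / z.im ^ 2 := by
  rw [rz_sub hA hL z hz.ne' f]
  have h1 : L (Rz L z f) - (L + A) (Rz L z f) = -(A (Rz L z f)) := by
    rw [ContinuousLinearMap.add_apply]
    abel
  rw [h1]
  have h2 := rz_norm L hL z hz.ne' f
  have h3 := rz_norm (L + A) hA z hz.ne' (-(A (Rz L z f)))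
  rw [hf, abs_of_pos hz] at h2
  rw [abs_of_pos hz, norm_neg] at h3
  refine h3.trans ?_
  have h4 : ‖A (Rz L z f)‖ ≤ M * (1 / z.im) := by
    refine (A.le_opNorm _).trans ?_
    have hM0 : 0 ≤ M := (norm_nonneg _).trans hM
    gcongr
  calc ‖A (Rz L z f)‖ / z.im ≤ M * (1 / z.im) / z.im := by gcongr
    _ = M / z.im ^ 2 := by
        field_simp

lemma im_inv (x : ℝ) (z : ℂ) : (((x : ℂ) - z)⁻¹).im = z.im / ((x - z.re) ^ 2 + z.im ^ 2) := by
  rw [Complex.inv_im, Complex.normSq_apply]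
  simp only [Complex.sub_re, Complex.sub_im, Complex.ofReal_re, Complex.ofReal_im, zero_sub, neg_neg]
  congr 1
  ring

lemma inv_int {m : Measure ℝ} [IsFiniteMeasure m] {z : ℂ} (hz : 0 < z.im) :
    Integrable (fun x : ℝ => ((x : ℂ) - z)⁻¹) m := by
  refine Integrable.of_bound (C := 1 / z.im) ?_ ?_
  · apply Continuous.aestronglyMeasurable
    apply Continuous.inv₀
    · fun_prop
    · intro x h
      have := congrArg Complex.im h
      simp at this
      linarith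
  · refine Eventually.of_forall fun x => ?_
    rw [norm_inv, ← one_div]
    apply one_div_le_one_div_of_le hz
    have h1 := Complex.abs_im_le_norm ((x : ℂ) - z)
    have h2 : ((x : ℂ) - z).im = -z.im := by simp
    rw [h2, abs_neg, abs_of_pos hz] at h1
    exact h1

lemma im_int {m : Measure ℝ} [IsFiniteMeasure m] {z : ℂ} (hz : 0 < z.im) :
    (∫ x : ℝ, ((x : ℂ) - z)⁻¹ ∂m).im = ∫ x : ℝ, (((x : ℂ) - z)⁻¹).im ∂m :=
  (Complex.imCLM.integral_comp_comm (inv_int hz)).symm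

/-- if the spectral measure does not charge a window, the resolvent has a small imaginary part in
the middle of the window -/
lemma gap_bound {T : LL V →L[ℂ] LL V} (hT : IsSelfAdjoint T) {f : LL V} (hf : ‖f‖ = 1)
    {m : Measure ℝ} (hm : SpM T f m) {E1 E2 d : ℝ} (hd : 0 < d) {z : ℂ} (hz : 0 < z.im)
    (h1 : E1 + d ≤ z.re) (h2 : z.re ≤ E2 - d) (h0 : m (Set.Ioo E1 E2) = 0) :
    (⟪f, Rz T z f⟫_ℂ).im ≤ 2 * z.im / d ^ 2 := by
  obtain ⟨hfin, hsp⟩ := hm
  set z' : ℂ := ⟨z.re, d⟩ with hz'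
  have hz'd : 0 < z'.im := hd
  rw [hsp z hz.ne', im_int hz]
  have hb : (⟪f, Rz T z' f⟫_ℂ).im ≤ 1 / d := by
    have h3 := Complex.abs_im_le_norm (⟪f, Rz T z' f⟫_ℂ)
    have h4 := norm_inner_le_norm (𝕜 := ℂ) f (Rz T z' f)
    have h5 := rz_norm T hT z' hz'd.ne' f
    rw [hf, one_mul] at h4
    rw [hf] at h5
    have h6 : |z'.im| = d := abs_of_pos hd
    rw [h6] at h5
    exact (le_abs_self _).trans (h3.trans (h4.trans h5))
  rw [hsp z' hz'd.ne', im_int hz'd] at hb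
  have hae : ∀ᵐ x : ℝ ∂m, (((x : ℂ) - z)⁻¹).im ≤ (2 * z.im / d) * (((x : ℂ) - z')⁻¹).im := by
    have hnot : ∀ᵐ x ∂m, x ∉ Set.Ioo E1 E2 := measure_eq_zero_iff_ae_notMem.1 h0
    filter_upwards [hnot] with x hx
    rw [im_inv, im_inv]
    have h3 : d ^ 2 ≤ (x - z.re) ^ 2 := by
      rw [Set.mem_Ioo, not_and_or, not_lt, not_lt] at hx
      rcases hx with hx | hx
      · nlinarith
      · nlinarith
    have e1 : z'.re = z.re := rfl
    have e2 : z'.im = d := rfl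
    rw [e1, e2]
    have hp1 : 0 < (x - z.re) ^ 2 + z.im ^ 2 := by positivity
    have hp2 : 0 < (x - z.re) ^ 2 + d ^ 2 := by positivity
    rw [div_mul_div_comm, div_le_div_iff₀ hp1 (by positivity)]
    have h4 : z.im * d * ((x - z.re) ^ 2 + d ^ 2) ≤ z.im * d * (2 * ((x - z.re) ^ 2 + z.im ^ 2)) := by
      have : (x - z.re) ^ 2 + d ^ 2 ≤ 2 * ((x - z.re) ^ 2 + z.im ^ 2) := by nlinarith [sq_nonneg z.im]
      gcongr
    calc z.im * (d * ((x - z.re) ^ 2 + d ^ 2)) = z.im * d * ((x - z.re) ^ 2 + d ^ 2) := by ring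
      _ ≤ _ := h4
      _ = _ := by ring
  have hi1 : Integrable (fun x : ℝ => (((x : ℂ) - z)⁻¹).im) m :=
    Complex.imCLM.integrable_comp (inv_int hz)
  have hi2 : Integrable (fun x : ℝ => (2 * z.im / d) * (((x : ℂ) - z')⁻¹).im) m :=
    (Complex.imCLM.integrable_comp (inv_int hz'd)).const_mul _
  refine (integral_mono_ae hi1 hi2 hae).trans ?_
  rw [integral_const_mul]
  calc 2 * z.im / d * ∫ x : ℝ, (((x : ℂ) - z')⁻¹).im ∂m ≤ 2 * z.im / d * (1 / d) := by gcongr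
    _ = 2 * z.im / d ^ 2 := by
        field_simp

end spec

theorem pos : S_Pos := by
  intro X _ _ H o L hL hLa ho E₁ E₂ hE1 hE12 hE2 b hb
  set c0 : ℝ := (E₁ + E₂) / 2 with hc0
  set κ : ℝ := (c0 - 8) / 4 with hκ
  set d : ℝ := (E₂ - E₁) / 4 with hd
  have hd0 : 0 < d := by rw [hd]; linarith
  have hκ1 : κ ^ 2 < 1 := by
    rw [sq_lt_one_iff_abs_lt_one, abs_lt, hκ, hc0]
    constructor <;> linarith
  set s : ℝ := Real.sqrt (1 - κ ^ 2) with hs
  have hs0 : 0 < s := Real.sqrt_pos.2 (by linarith)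
  have hs2 : s ^ 2 = 1 - κ ^ 2 := Real.sq_sqrt (by linarith)
  -- the choice of `t`
  have ht : ∃ t : ℝ, 0 < t ∧ t < 1 ∧ |2 * (t + t⁻¹) * κ - 4 * κ| ≤ d ∧
      2 * (2 * (t⁻¹ - t) * s) / d ^ 2 < t * s / 4 := by
    have e1 : ∀ᶠ t : ℝ in 𝓝[<] 1, t < 1 := eventually_mem_nhdsWithin
    have e2 : ∀ᶠ t : ℝ in 𝓝[<] 1, 0 < t :=
      (eventually_gt_nhds (show (0 : ℝ) < 1 by norm_num)).filter_mono nhdsWithin_le_nhds
    have hc1 : ContinuousAt (fun t : ℝ => |2 * (t + t⁻¹) * κ - 4 * κ|) 1 := by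
      have : ContinuousAt (fun t : ℝ => t⁻¹) 1 := continuousAt_inv₀ one_ne_zero
      fun_prop
    have hc2 : ContinuousAt (fun t : ℝ => t * s / 4 - 2 * (2 * (t⁻¹ - t) * s) / d ^ 2) 1 := by
      have : ContinuousAt (fun t : ℝ => t⁻¹) 1 := continuousAt_inv₀ one_ne_zero
      fun_prop
    have e3 : ∀ᶠ t : ℝ in 𝓝[<] 1, |2 * (t + t⁻¹) * κ - 4 * κ| < d := by
      refine (hc1.eventually_lt_const ?_).filter_mono nhdsWithin_le_nhds
      have : 2 * ((1 : ℝ) + 1⁻¹) * κ - 4 * κ = 0 := by norm_num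
      change |2 * ((1 : ℝ) + 1⁻¹) * κ - 4 * κ| < d
      rw [this, abs_zero]
      exact hd0
    have e4 : ∀ᶠ t : ℝ in 𝓝[<] 1, 0 < t * s / 4 - 2 * (2 * (t⁻¹ - t) * s) / d ^ 2 := by
      refine (hc2.eventually_const_lt ?_).filter_mono nhdsWithin_le_nhds
      have : (1 : ℝ) * s / 4 - 2 * (2 * ((1 : ℝ)⁻¹ - 1) * s) / d ^ 2 = s / 4 := by
        rw [inv_one, sub_self, mul_zero, zero_mul, mul_zero, zero_div, sub_zero, one_mul]
      change 0 < (1 : ℝ) * s / 4 - 2 * (2 * ((1 : ℝ)⁻¹ - 1) * s) / d ^ 2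
      rw [this]
      positivity
    obtain ⟨t, h1, h2, h3, h4⟩ := (e1.and (e2.and (e3.and e4))).exists
    exact ⟨t, h2, h1, h3.le, by linarith⟩
  obtain ⟨t, ht0, ht1, ht2, ht3⟩ := ht
  set r : ℂ := ⟨t * κ, -(t * s)⟩ with hr
  set r' : ℂ := ⟨t⁻¹ * κ, t⁻¹ * s⟩ with hr'
  have hrr : r * r' = 1 := by
    have ht0' : t ≠ 0 := ht0.ne'
    apply Complex.ext
    · rw [Complex.mul_re, Complex.one_re]
      show t * κ * (t⁻¹ * κ) - -(t * s) * (t⁻¹ * s) = 1
      have : t * κ * (t⁻¹ * κ) - -(t * s) * (t⁻¹ * s) = (t * t⁻¹) * (κ ^ 2 + s ^ 2) := by ring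
      rw [this, hs2, mul_inv_cancel₀ ht0']
      ring
    · rw [Complex.mul_im, Complex.one_im]
      show t * κ * (t⁻¹ * s) + -(t * s) * (t⁻¹ * κ) = 0
      ring
  have hrn : ‖r‖ < 1 := by
    have h1 : ‖r‖ ^ 2 = t ^ 2 := by
      rw [Complex.sq_norm, Complex.normSq_apply]
      show t * κ * (t * κ) + -(t * s) * -(t * s) = t ^ 2
      have : t * κ * (t * κ) + -(t * s) * -(t * s) = t ^ 2 * (κ ^ 2 + s ^ 2) := by ring
      rw [this, hs2]
      ring
    have h2 := norm_nonneg r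
    nlinarith
  set z : ℂ := 8 + 2 * (r + r') with hz
  have hzim : z.im = 2 * (t⁻¹ - t) * s := by
    have : z.im = 2 * (r.im + r'.im) := by rw [hz]; simp
    rw [this]
    show 2 * (-(t * s) + t⁻¹ * s) = _
    ring
  have hzre : z.re = 8 + 2 * (t + t⁻¹) * κ := by
    have : z.re = 8 + 2 * (r.re + r'.re) := by rw [hz]; simp
    rw [this]
    show 8 + 2 * (t * κ + t⁻¹ * κ) = _
    ring
  have hz0 : 0 < z.im := by
    rw [hzim]
    have : 1 < t⁻¹ := (one_lt_inv₀ ht0).2 ht1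
    have : 0 < t⁻¹ - t := by linarith
    positivity
  have hfree := free_res H L hL hLa ho hrr hrn hz0.ne'
  rw [← hz] at hfree
  have hfim : (⟪dv o, Rz L z (dv o)⟫_ℂ).im = t * s / 2 := by
    rw [hfree]
    have : (-r / 2).im = -r.im / 2 := by
      rw [Complex.div_ofNat_im, Complex.neg_im]
    rw [this]
    show - -(t * s) / 2 = _
    ring
  refine ⟨t * s / 8 * z.im ^ 2 / b, by positivity, fun l hl ω m hm => ?_⟩
  rw [pos_iff_ne_zero]
  intro h0
  have hT : IsSelfAdjoint (L + ((l : ℝ) : ℂ) • Mw b ω) := hL.add (real_smul_sa l _ (Mw_sa b ω))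
  have hN : ‖((l : ℝ) : ℂ) • Mw b ω‖ ≤ |l| * b := by
    rw [norm_smul, Complex.norm_real, Real.norm_eq_abs]
    have := Mw_norm b ω
    rw [abs_of_pos hb] at this
    gcongr
  have hpert := rz_pert hL hT hz0 (norm_dv o) hN
  have h1 := gap_bound hT (norm_dv o) hm (E1 := E₁) (E2 := E₂) hd0 hz0
    (by
      rw [hzre]
      have h5 := (abs_le.1 ht2).1
      have h6 : 8 + 4 * κ = c0 := by rw [hκ]; ring
      have h7 : c0 = E₁ + 2 * d := by rw [hc0, hd]; ring
      linarith)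
    (by
      rw [hzre]
      have h5 := (abs_le.1 ht2).2
      have h6 : 8 + 4 * κ = c0 := by rw [hκ]; ring
      have h7 : c0 = E₂ - 2 * d := by rw [hc0, hd]; ring
      linarith) h0
  rw [hzim] at h1
  rw [← hzim] at h1 ht3
  have h2 : (⟪dv o, Rz L z (dv o)⟫_ℂ).im -
      (⟪dv o, Rz (L + ((l : ℝ) : ℂ) • Mw b ω) z (dv o)⟫_ℂ).im ≤ |l| * b / z.im ^ 2 := by
    rw [← Complex.sub_im, ← inner_sub_right]
    refine (le_abs_self _).trans ((Complex.abs_im_le_norm _).trans ?_)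
    refine (norm_inner_le_norm _ _).trans ?_
    rw [norm_dv, one_mul, norm_sub_rev]
    exact hpert
  have h3 : |l| * b / z.im ^ 2 ≤ t * s / 8 := by
    rw [le_div_iff₀ hb] at hl
    rw [div_le_iff₀ (by positivity)]
    exact hl
  have h4 : 0 < t * s := by positivity
  rw [hfim] at h2
  linarith

end Pool.Agent.Helper68.PG
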